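import Pool.Agent.Q237.LR.Stm

/-! # Antisymmetric kernels with signs: dilation matrices on `L × Bool`

Job ANT of project LR of helper237. -/

set_option autoImplicit false

namespace Pool.Agent.Q162.LR

open MeasureTheory ProbabilityTheory H10PL
open scoped Matrix
open Pool.Agent.Q237.LR

section

variable {L : Type} [Fintype L] [DecidableEq L]

/-- signs of the dilation -/
def eta : Bool → Bool → ℝ
  | false, true => 1
  | true, false => -1
  | _, _ => 0

theorem eta_symm (b c : Bool) : eta c b = - eta b c := by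
  cases b <;> cases c <;> simp [eta]

/-- the dilation -/
def Am (a : L → L → ℝ) (e : Sym2 L) : Matrix (L × Bool) (L × Bool) ℝ :=
  fun p q => if s(p.1, q.1) = e then eta p.2 q.2 * a p.1 q.1 else 0

omit [Fintype L] in
theorem Am_symm (a : L → L → ℝ) (ha : ∀ y w, a w y = - a y w) (e : Sym2 L) : (Am a e).IsSymm := by
  ext p q
  rw [Matrix.transpose_apply]
  unfold Am
  rw [Sym2.eq_swap (a := q.1) (b := p.1), eta_symm p.2 q.2, ha p.1 q.1, neg_mul_neg]

theorem Am_sq (a : L → L → ℝ) (ha : ∀ y w, a w y = - a y w) :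
    ∑ e, Am a e * Am a e = Matrix.diagonal fun p : L × Bool => ∑ w, a p.1 w ^ 2 := by
  ext p q
  rw [Matrix.sum_apply]
  simp only [Matrix.mul_apply]
  rw [Finset.sum_comm]
  have h1 : ∀ r : L × Bool, ∑ e, Am a e p r * Am a e r q =
      if p.1 = q.1 then (eta p.2 r.2 * eta r.2 q.2) * -(a p.1 r.1 ^ 2) else 0 := by
    intro r
    unfold Am
    simp only [ite_mul, zero_mul, mul_ite, mul_zero]
    have h2 : ∀ e : Sym2 L, (if s(r.1, q.1) = e then
        (if s(p.1, r.1) = e then eta p.2 r.2 * a p.1 r.1 * (eta r.2 q.2 * a r.1 q.1) else 0) else 0) =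
        if e = s(p.1, r.1) then
        (if s(r.1, q.1) = s(p.1, r.1) then eta p.2 r.2 * a p.1 r.1 * (eta r.2 q.2 * a r.1 q.1) else 0)
        else 0 := by
      intro e
      by_cases h : e = s(p.1, r.1)
      · subst h; simp
      · simp [h, Ne.symm h]
    rw [Finset.sum_congr rfl fun e _ => h2 e, Finset.sum_ite_eq' Finset.univ]
    simp only [Finset.mem_univ, if_true]
    have h3 : s(r.1, q.1) = s(p.1, r.1) ↔ p.1 = q.1 := by
      rw [Sym2.eq_iff]
      constructor
      · rintro (⟨h, h'⟩ | ⟨-, h⟩)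
        · exact h.symm.trans h'.symm
        · exact h.symm
      · intro h
        exact Or.inr ⟨rfl, h.symm⟩
    by_cases h : p.1 = q.1
    · rw [if_pos h, if_pos (h3.2 h), ← h, ha p.1 r.1]
      ring
    · rw [if_neg h, if_neg (fun h' => h (h3.1 h'))]
  rw [Finset.sum_congr rfl fun r _ => h1 r, Matrix.diagonal_apply]
  by_cases h : p.1 = q.1
  · simp only [if_pos h]
    rw [Fintype.sum_prod_type]
    obtain ⟨y, b⟩ := p
    obtain ⟨w, c⟩ := q
    simp only at h
    subst h
    simp only [Fintype.sum_bool]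
    rw [← Finset.sum_add_distrib.symm.trans rfl]
    cases b <;> cases c <;> simp [eta]
  · have h' : p ≠ q := fun h' => h (by rw [h'])
    simp [h, h']

end

theorem ant : S_SGF → S_ANT := by
  intro hS m hm
  obtain ⟨C, hC, H⟩ := hS m hm
  refine ⟨2 * C, by positivity, ?_⟩
  intro L _ _ a c T ha hc hT hrow htot
  have hsq := Am_sq a ha
  obtain ⟨Φ, hΦ0, hΦ1, hΦ2⟩ := H (Sym2 L) (L × Bool) (Am a) c (2 * T) (Am_symm a ha) hc
    (by positivity) (by
      rw [hsq, ← Matrix.diagonal_one, ← Matrix.diagonal_smul, Matrix.diagonal_sub]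
      refine Matrix.PosSemidef.diagonal fun p => ?_
      simp only [Pi.smul_apply, smul_eq_mul, mul_one, Pi.zero_apply]
      exact sub_nonneg.2 (hrow p.1)) (by
      rw [hsq, Matrix.trace_diagonal, Fintype.sum_prod_type]
      simp only [Fintype.sum_bool]
      rw [Finset.sum_add_distrib]
      linarith)
  refine ⟨Φ, hΦ0, ?_, ?_⟩
  · intro ε u v
    have h1 := hΦ1 ε (fun p => if p.2 then v p.1 else u p.1)
    have hmat : ∀ p q : L × Bool, (∑ e, sg (ε e) • Am a e) p q =
        sg (ε s(p.1, q.1)) * (eta p.2 q.2 * a p.1 q.1) := by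
      intro p q
      rw [Matrix.sum_apply]
      simp only [Matrix.smul_apply, smul_eq_mul, Am, mul_ite, mul_zero]
      rw [Finset.sum_ite_eq Finset.univ]
      simp
    have hx : (fun p : L × Bool => if p.2 then v p.1 else u p.1) ⬝ᵥ
        (fun p : L × Bool => if p.2 then v p.1 else u p.1) = ∑ y, u y ^ 2 + ∑ y, v y ^ 2 := by
      simp only [dotProduct, Fintype.sum_prod_type, Fintype.sum_bool]
      rw [← Finset.sum_add_distrib]
      refine Finset.sum_congr rfl fun y _ => ?_
      simp
      ring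
    have hq : (fun p : L × Bool => if p.2 then v p.1 else u p.1) ⬝ᵥ
        ((∑ e, sg (ε e) • Am a e) *ᵥ (fun p : L × Bool => if p.2 then v p.1 else u p.1)) =
        2 * ∑ y, ∑ w, a y w * sg (ε s(y, w)) * (u y * v w) := by
      simp only [dotProduct, Matrix.mulVec, hmat, Fintype.sum_prod_type, Fintype.sum_bool]
      simp only [eta, if_true, Bool.false_eq_true, if_false, zero_mul, mul_zero, zero_add, add_zero, one_mul]
      rw [Finset.sum_add_distrib]
      have h3 : ∑ y, v y * ∑ w, sg (ε s(y, w)) * (-1 * a y w) * u w =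
          ∑ y, ∑ w, a y w * sg (ε s(y, w)) * (u y * v w) := by
        simp only [Finset.mul_sum]
        rw [Finset.sum_comm]
        refine Finset.sum_congr rfl fun y _ => Finset.sum_congr rfl fun w _ => ?_
        rw [ha y w, Sym2.eq_swap]
        ring
      have h4 : ∑ y, u y * ∑ w, sg (ε s(y, w)) * a y w * v w =
          ∑ y, ∑ w, a y w * sg (ε s(y, w)) * (u y * v w) := by
        simp only [Finset.mul_sum]
        refine Finset.sum_congr rfl fun y _ => Finset.sum_congr rfl fun w _ => ?_
        ring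
      rw [h3, h4]
      ring
    rw [hq, hx, abs_mul, abs_two] at h1
    have h5 := abs_nonneg (∑ y, ∑ w, a y w * sg (ε s(y, w)) * (u y * v w))
    linarith
  · refine hΦ2.trans ?_
    refine mul_le_mul_of_nonneg_left ?_ (by positivity)
    have hm0 : (1 : ℝ) ≤ m := by exact_mod_cast hm
    have h1 : (c ^ (m - 1) * (2 * T)) ^ (1 / (2 * m : ℝ)) ≤
        2 * (c ^ (m - 1) * T) ^ (1 / (2 * m : ℝ)) := by
      have h2 : c ^ (m - 1) * (2 * T) = 2 * (c ^ (m - 1) * T) := by ring
      rw [h2, Real.mul_rpow (by norm_num) (by positivity)]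
      refine mul_le_mul_of_nonneg_right ?_ (by positivity)
      calc (2 : ℝ) ^ (1 / (2 * m : ℝ)) ≤ 2 ^ (1 : ℝ) := by
            refine Real.rpow_le_rpow_of_exponent_le (by norm_num) ?_
            rw [div_le_one (by positivity)]
            linarith
        _ = 2 := Real.rpow_one 2
    calc C * (c ^ (m - 1) * (2 * T)) ^ (1 / (2 * m : ℝ))
        ≤ C * (2 * (c ^ (m - 1) * T) ^ (1 / (2 * m : ℝ))) := mul_le_mul_of_nonneg_left h1 hC.le
      _ = 2 * C * (c ^ (m - 1) * T) ^ (1 / (2 * m : ℝ)) := by ring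

end Pool.Agent.Q162.LR
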